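import Pool.Agent.V11249.NP.Fix
import Pool.Agent.V11249.NP.Fam

/-!
# Arithmetic progressions of integers `x` with `x ^ 2 + x + a` prime, uniformly in `a`

For all odd integers `a`, whatever their size, consider the integers `x` for which `|x ^ 2 + x + a|` is prime. The number of these `x` in a window `(A, A + N]` has the
expected order of magnitude `N V` if and only if the number of their `k`-term arithmetic progressions with
differences up to `D` has the expected order of magnitude `N D V ^ k`, for all `D` between a power of `log N` and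
`N`; the constants depend only on `k`. The same holds for all sets of `x` at which the values have no
prime factor `≤ N ^ κ` (Szemerédi's theorem relative to these sets, and its converse).
-/

set_option autoImplicit false

open Finset Polynomial Pool.Agent.V11249.NP

namespace Pool.Agent.Results.MP_8be758_nt.ProgressionsOfArguments

/-- the number of the residues `x` modulo `p` with `p ∣ x ^ 2 + x + a` -/
def omega (a : ℤ) (p : ℕ) : ℕ := ((range p).filter (fun x : ℕ => (p : ℤ) ∣ (x : ℤ) ^ 2 + x + a)).card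

/-- the sieve product over the primes `p ≤ N ^ κ` -/
noncomputable def V (a : ℤ) (κ : ℝ) (N : ℕ) : ℝ :=
  ∏ p ∈ (Icc 1 ⌊(N : ℝ) ^ κ⌋₊).filter Nat.Prime, (1 - (omega a p : ℝ) / p)

/-- the integers `x` in `(A, A + N]` for which `|x ^ 2 + x + a|` is prime -/
def P (a : ℤ) (A N : ℕ) : Finset ℕ := (Ioc A (A + N)).filter (fun x : ℕ => ((x : ℤ) ^ 2 + x + a).natAbs.Prime)

/-- all prime factors of `x ^ 2 + x + a` are larger than `N ^ κ` -/
def Rough (a : ℤ) (κ : ℝ) (N x : ℕ) : Prop :=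
  ∀ p : ℕ, p.Prime → (p : ℤ) ∣ (x : ℤ) ^ 2 + x + a → (N : ℝ) ^ κ < p

open Classical in
/-- The number of the progressions `n, n + d, …, n + (k - 1) d` in `S` with `1 ≤ d ≤ D`. -/
noncomputable def AP (k D : ℕ) (S : Finset ℕ) : ℕ :=
  ((S ×ˢ Icc 1 D).filter (fun q => ∀ j < k, q.1 + j * q.2 ∈ S)).card

/-- the system -/
noncomputable def F (a : ℤ) : Fin 1 → ℤ[X] := fun _ => Pool.Agent.TH464.PW.quad 1 1 a

theorem ev (a : ℤ) (i : Fin 1) (n : ℤ) : (F a i).eval n = n ^ 2 + n + a := by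
  simp [F, Pool.Agent.TH464.PW.quad]

theorem deg (a : ℤ) (i : Fin 1) : (F a i).natDegree = 2 := by
  show (Pool.Agent.TH464.PW.quad 1 1 a).natDegree = 2
  exact natDegree_quadratic one_ne_zero

theorem adm {a : ℤ} (h : Odd a) : ∀ p : ℕ, p.Prime → ∃ m : ℕ, ∀ i, ¬ (p : ℤ) ∣ (F a i).eval (m : ℤ) := by
  intro p hp
  by_cases h0 : (p : ℤ) ∣ a
  · refine ⟨1, fun i hi => ?_⟩
    rw [ev] at hi
    have h1 := dvd_sub hi h0
    have e : ((1 : ℕ) : ℤ) ^ 2 + ((1 : ℕ) : ℤ) + a - a = ((2 : ℕ) : ℤ) := by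
      push_cast
      ring
    rw [e, Int.natCast_dvd_natCast] at h1
    have h2 := (Nat.prime_dvd_prime_iff_eq hp Nat.prime_two).1 h1
    subst h2
    obtain ⟨r, hr⟩ := h
    push_cast at h0
    omega
  · refine ⟨0, fun i hi => h0 ?_⟩
    rw [ev] at hi
    simpa using hi

theorem us {a : ℤ} (h : Odd a) : UniG.US 2 (F a) :=
  ⟨fun i => by rw [deg]; omega, adm h⟩

theorem V_eq (a : ℤ) (κ : ℝ) (N : ℕ) : V a κ N = UniG.V (F a) κ N := by
  unfold V
  refine UniG.V_eq (F a) κ N _ (fun p _ => ?_)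
  unfold omega
  congr 1
  ext x
  rw [UniG.mem_ZZ, mem_filter, mem_range, Fin.exists_fin_one, ev]

theorem sys {a : ℤ} (h : Odd a) (h3 : 3 ≤ a) : Pool.Agent.W123.RU.Poly.Sys (F a) where
  irr := fun _ => by
    refine Pool.Agent.TH464.PW.quad_irr 1 1 a one_ne_zero (fun p hp h => ?_) ?_
    · have h1 : p ∣ 1 := by exact_mod_cast h.1
      exact hp.one_lt.ne' (Nat.dvd_one.1 h1)
    rintro ⟨r, hr⟩
    nlinarith [mul_self_nonneg r]
  deg := fun i => by rw [deg]; norm_num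
  lead := fun i => by
    show 0 < (Pool.Agent.TH464.PW.quad 1 1 a).leadingCoeff
    have : (Pool.Agent.TH464.PW.quad 1 1 a).leadingCoeff = 1 := leadingCoeff_quadratic one_ne_zero
    rw [this]
    exact one_pos
  inj := fun i j _ => Subsingleton.elim i j
  adm := adm h

/-- For every `k ≥ 1`, with constants which do not depend on the odd integer `a` nor on the window:
(1) for `κ > 0` a set `S` of integers of `(A, A + N]` at which `x ^ 2 + x + a` has no prime factor `≤ N ^ κ` contains at most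
`C N D V ^ k` progressions of length `k` with differences at most `D`;
(2) it contains at least `c₀ N D V ^ k` of them if it has at least `δ N V` elements, and it has at least
`c₀ N V` elements if it contains at least `δ N D V ^ k` of them, for all `D` between `log ^ B N` and `N`;
(3), (4) the same for the set `P` (with `κ = 1/4` in `V`).
(5) For a fixed odd `a ≥ 3` the product `V` is of the exact order `1 / log N`. -/
theorem result (k : ℕ) (hk : 1 ≤ k) :
    (∀ κ : ℝ, 0 < κ → ∃ C : ℝ, 0 < C ∧ ∃ B N₀ : ℕ, ∀ a : ℤ, Odd a → ∀ N A D : ℕ,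
      N₀ ≤ N → Real.log N ^ B ≤ D → ∀ S : Finset ℕ, S ⊆ Ioc A (A + N) → (∀ x ∈ S, Rough a κ N x) →
        (AP k D S : ℝ) ≤ C * (N * D * V a κ N ^ k)) ∧
    (∀ κ δ : ℝ, 0 < κ → 0 < δ → ∃ c₀ : ℝ, 0 < c₀ ∧ ∃ B N₀ : ℕ, ∀ a : ℤ, Odd a → ∀ N A D : ℕ,
      N₀ ≤ N → Real.log N ^ B ≤ D → D ≤ N → ∀ S : Finset ℕ, S ⊆ Ioc A (A + N) →
        (∀ x ∈ S, Rough a κ N x) →
        (δ * (N * V a κ N) ≤ S.card → c₀ * (N * D * V a κ N ^ k) ≤ AP k D S) ∧
        (δ * (N * D * V a κ N ^ k) ≤ AP k D S → c₀ * (N * V a κ N) ≤ S.card)) ∧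
    (∃ C : ℝ, 0 < C ∧ ∃ B N₀ : ℕ, ∀ a : ℤ, Odd a → ∀ N A D : ℕ, N₀ ≤ N →
      Real.log N ^ B ≤ D → (AP k D (P a A N) : ℝ) ≤ C * (N * D * V a (1 / 4) N ^ k)) ∧
    (∀ δ : ℝ, 0 < δ → ∃ c₀ : ℝ, 0 < c₀ ∧ ∃ B N₀ : ℕ, ∀ a : ℤ, Odd a → ∀ N A D : ℕ, N₀ ≤ N →
      Real.log N ^ B ≤ D → D ≤ N →
      (δ * (N * V a (1 / 4) N) ≤ (P a A N).card →
        c₀ * (N * D * V a (1 / 4) N ^ k) ≤ AP k D (P a A N)) ∧
      (δ * (N * D * V a (1 / 4) N ^ k) ≤ AP k D (P a A N) →
        c₀ * (N * V a (1 / 4) N) ≤ (P a A N).card)) ∧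
    (∀ a : ℤ, Odd a → 3 ≤ a → ∀ κ : ℝ, 0 < κ → ∃ v C : ℝ, 0 < v ∧ 0 < C ∧ ∃ N₀ : ℕ, ∀ N : ℕ, N₀ ≤ N →
      v / Real.log N ≤ V a κ N ∧ V a κ N ≤ C / Real.log N) := by
  obtain ⟨a1, a2, a3, a4⟩ := UniG.transfer 1 2 (fun a : ℤ => F a) (fun a => Odd a)
    (fun a h => us h) (fun a => Rough a) (fun a => P a) (fun a => V a)
    (fun a _ κ N n h i p hp hd => h p hp (by rwa [ev] at hd))
    (fun a _ A N n => by
      unfold P
      rw [mem_filter, mem_Ioc, Fin.forall_fin_one, ev])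
    (fun a _ κ N => V_eq a κ N) k hk
  refine ⟨a1, a2, a3, a4, ?_⟩
  intro a ha h3 κ hκ
  obtain ⟨v, C, hv, hC, N₀, h⟩ := UniG.fixed (F a) (sys ha h3) κ hκ
  refine ⟨v, C, hv, hC, N₀, fun N hN => ?_⟩
  rw [V_eq, ← pow_one (Real.log N)]
  exact h N hN

end Pool.Agent.Results.MP_8be758_nt.ProgressionsOfArguments
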