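import Pool.Agent.V11249.NP.Reg
import Pool.Agent.V11249.NP.Fam

/-!
# Integers `m` with `m ^ 2 + m + A` almost prime: regular windows in all short intervals

Let `A ≥ 3` be odd. There are `r` and `c₁, c₂, K, κ > 0` such that in every interval `(X, X + Y]` with `X ^ θ ≤ Y ≤ X` at least `κ Y` of the
integers `n` are regular: every window `(a, b]` around `n` of length between `K log X` and `Y` contains between
`c₁ (b - a) / log X` and `c₂ (b - a) / log X` integers `m` for which `m ^ 2 + m + A`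
has at most `r` prime factors, all larger than `X ^ (1 / r)`; moreover, at all but boundedly many dyadic scales these
`m` have a constant density around `n`, up to an error `δ`.
-/

set_option autoImplicit false

open Finset Filter Polynomial

namespace Pool.Agent.Results.MP_8be758_nt.RegularWindows

/-- `m ^ 2 + m + A` has at most `r` prime factors (with multiplicity), all of them larger than `z` -/
def AlmostPrime (A : ℤ) (r : ℕ) (z : ℝ) (m : ℕ) : Prop :=
  ((m : ℤ) ^ 2 + m + A).natAbs.primeFactorsList.length ≤ r ∧ ∀ p : ℕ, p.Prime → (p : ℤ) ∣ (m : ℤ) ^ 2 + m + A → z < p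

open Classical in
/-- the number of the `m` in `(a, b]` with almost prime values, all prime factors being larger than
`X ^ (1 / r)` -/
noncomputable def cnt (A : ℤ) (r X a b : ℕ) : ℕ :=
  ((Ioc a b).filter (fun m => AlmostPrime A r ((X : ℝ) ^ (1 / (r : ℝ))) m)).card

/-- all windows `(a, b]` around `n`, of length between `K log X` and `Y`, contain the right order of such `m` -/
def Regular (A : ℤ) (r : ℕ) (c₁ c₂ K : ℝ) (X Y n : ℕ) : Prop :=
  ∀ a b : ℕ, a ≤ n → n ≤ b → K * Real.log X ≤ (b : ℝ) - a → (b : ℝ) - a ≤ Y →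
    c₁ * ((b : ℝ) - a) / Real.log X ≤ (cnt A r X a b : ℝ) ∧ (cnt A r X a b : ℝ) ≤ c₂ * ((b : ℝ) - a) / Real.log X

/-- the density is constant on `[n - 2 ^ j, n + 2 ^ j]`, up to `δ` -/
def Constant (A : ℤ) (r : ℕ) (c₁ c₂ δ : ℝ) (X n j : ℕ) : Prop :=
  ∃ lam : ℝ, c₁ ≤ lam ∧ lam ≤ c₂ ∧ ∀ u v : ℕ, n ≤ u + 2 ^ j → u ≤ v → v ≤ n + 2 ^ j →
    |(cnt A r X u v : ℝ) - lam * ((v : ℝ) - u) / Real.log X| ≤ δ * 2 ^ j / Real.log X

open Classical in
/-- the number of the scales `2 ^ j` between `log X` and `Y` at which the density is not constant -/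
noncomputable def badScales (A : ℤ) (r : ℕ) (c₁ c₂ δ : ℝ) (X Y n : ℕ) : ℕ :=
  ((range (Nat.log 2 Y + 1)).filter (fun j => Real.log X ≤ (2 : ℝ) ^ j ∧ ¬ Constant A r c₁ c₂ δ X n j)).card

/-- the system -/
noncomputable def F (A : ℤ) : Fin 1 → ℤ[X] := fun _ => Pool.Agent.TH464.PW.quad 1 1 A

theorem ev (A : ℤ) (i : Fin 1) (n : ℤ) : (F A i).eval n = n ^ 2 + n + A := by
  simp [F, Pool.Agent.TH464.PW.quad]

theorem sys {A : ℤ} (h : Odd A) (h3 : 3 ≤ A) : Pool.Agent.W123.RU.Poly.Sys (F A) where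
  irr := fun _ => by
    refine Pool.Agent.TH464.PW.quad_irr 1 1 A one_ne_zero (fun p hp h => ?_) ?_
    · have h1 : p ∣ 1 := by exact_mod_cast h.1
      exact hp.one_lt.ne' (Nat.dvd_one.1 h1)
    rintro ⟨r, hr⟩
    nlinarith [mul_self_nonneg r]
  deg := fun i => by
    show 0 < (Pool.Agent.TH464.PW.quad 1 1 A).natDegree
    have : (Pool.Agent.TH464.PW.quad 1 1 A).natDegree = 2 := natDegree_quadratic one_ne_zero
    rw [this]
    norm_num
  lead := fun i => by
    show 0 < (Pool.Agent.TH464.PW.quad 1 1 A).leadingCoeff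
    have : (Pool.Agent.TH464.PW.quad 1 1 A).leadingCoeff = 1 := leadingCoeff_quadratic one_ne_zero
    rw [this]
    exact one_pos
  inj := fun i j _ => Subsingleton.elim i j
  adm := by
    intro p hp
    by_cases h0 : (p : ℤ) ∣ A
    · refine ⟨1, fun i hi => ?_⟩
      rw [ev] at hi
      have h1 := dvd_sub hi h0
      have e : ((1 : ℕ) : ℤ) ^ 2 + ((1 : ℕ) : ℤ) + A - A = ((2 : ℕ) : ℤ) := by
        push_cast
        ring
      rw [e, Int.natCast_dvd_natCast] at h1
      have h2 := (Nat.prime_dvd_prime_iff_eq hp Nat.prime_two).1 h1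
      subst h2
      obtain ⟨r, hr⟩ := h
      push_cast at h0
      omega
    · refine ⟨0, fun i hi => h0 ?_⟩
      rw [ev] at hi
      simpa using hi

theorem iff_almost (A : ℤ) (r : ℕ) (z : ℝ) (m : ℕ) :
    AlmostPrime A r z m ↔ Pool.Agent.TH464.PW.Almost (F A) r z m := by
  unfold AlmostPrime Pool.Agent.TH464.PW.Almost
  rw [Fin.forall_fin_one, ev]

open Classical in
/-- **Regular windows.** For `0 < θ ≤ 1` there are `r` and `c₁, c₂, K, κ > 0` such that for every `δ > 0` there is `B`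
such that for all large `X` and all `X ^ θ ≤ Y ≤ X`: at least `κ Y` of the `n` in `(X, X + Y]` are regular and have at
most `B` scales at which the density is not constant up to `δ`. -/
theorem result (A : ℤ) (hA : Odd A) (h3 : 3 ≤ A) (θ : ℝ) (hθ : 0 < θ) (hθ1 : θ ≤ 1) :
    ∃ (r : ℕ) (c₁ c₂ K κ : ℝ), 0 < c₁ ∧ 0 < c₂ ∧ 0 < K ∧ 0 < κ ∧ ∀ δ : ℝ, 0 < δ → ∃ B : ℕ,
      ∀ᶠ X : ℕ in atTop, ∀ Y : ℕ, (X : ℝ) ^ θ ≤ Y → Y ≤ X →
        κ * Y ≤ (((Ioc X (X + Y)).filter (fun n =>
          Regular A r c₁ c₂ K X Y n ∧ badScales A r c₁ c₂ δ X Y n ≤ B)).card : ℝ) := by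
  have h := Pool.Agent.V11249.NP.reg_win (g := 1) (by norm_num) (F A) (sys hA h3) (AlmostPrime A)
    (iff_almost A) θ hθ hθ1
  simp only [pow_one] at h
  exact h

end Pool.Agent.Results.MP_8be758_nt.RegularWindows
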