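import Pool.Agent.V11296.CX6

/-!
The squarefree values of `F(n) = n^2 + n + A`, `A = 3, 5, 11, 17, 41` (and `1`, `2`), `n` in an
arithmetic progression: exact densities of the patterns formed by the numbers of the prime factors of
`d` and `d'` modulo `k`, where `F(n) = d d'`, and the parities of the numbers of the prime factors of
`F(n)` in the residue classes modulo `m`. The pattern of a prime value is one of them.

The starting files `SquarefreeEulerResidues` and `SquarefreeEulerLogTwo` of this problem have the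
numbers of prime factors modulo `k` (`m = 1`). The cancellation theorem for `g₁(d) g₂(d')`
(`W251.EG.tsG`), the criterion for aperiodicity `W251.EG.apdE`, the lower bound for the number of
squarefree values `W251.EG.sps9` and the comparison of weights (`W293.EG.compare`,
`W293.EG.scale_sum`) used here are those of the starting files.
-/

set_option autoImplicit false

namespace Pool.Agent.Results.MP_8be758_nt.SquarefreePatternDensities

open Finset Filter

open scoped Classical in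
/-- the set of the positive integers `X` with `P X` has logarithmic density `0` -/
def LogNull (P : ℕ → Prop) : Prop :=
  Tendsto (fun Z : ℕ => (∑ X ∈ (Icc 1 Z).filter P, 1 / (X : ℝ)) / Real.log Z) atTop (nhds 0)

open scoped Classical in
/-- the number of the prime factors of `N` in a residue class modulo `m`, counted with
multiplicity -/
noncomputable def factorsIn (m N : ℕ) (b : ZMod m) : ℕ :=
  N.primeFactorsList.countP (fun p : ℕ => (p : ZMod m) = b)

open scoped Classical in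
/-- the set of the residue classes modulo `m`, prime to `m`, which contain an odd number of the
prime factors of `N`, counted with multiplicity -/
noncomputable def oddClasses (m : ℕ) [NeZero m] (N : ℕ) : Finset (ZMod m)ˣ :=
  univ.filter (fun b => Odd (factorsIn m N b))

/-- the number of the prime factors of `d` (with multiplicity) is `≡ i mod k`, that of `d'` is
`≡ j mod k`, and `T` is the set of the classes modulo `m`, prime to `m`, which contain an odd number
of the prime factors of `d d'` -/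
def PairPattern (m k i j : ℕ) [NeZero m] (T : Finset (ZMod m)ˣ) (d d' : ℕ) : Prop :=
  d.primeFactorsList.length ≡ i [MOD k] ∧ d'.primeFactorsList.length ≡ j [MOD k] ∧
    oddClasses m (d * d') = T

/-- `b` is the residue class of a value `x^2+xy+Ay^2` prime to `m` -/
def IsNorm (A m : ℕ) (b : ZMod m) : Prop := ∃ x y : ℤ,
  IsCoprime (x ^ 2 + x * y + A * y ^ 2) (m : ℤ) ∧
  ((x ^ 2 + x * y + A * y ^ 2 : ℤ) : ZMod m) = b

/-- `T` consists of classes of norms, `|T| ≡ i + j mod 2` if `k` is even, and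
`v ≡ s^2 ∏_{b ∈ T} b mod m` for the class `s` of a norm -/
def Admissible (A m k v i j : ℕ) (T : Finset (ZMod m)ˣ) : Prop :=
  (∀ b ∈ T, IsNorm A m b) ∧ (2 ∣ k → T.card ≡ i + j [MOD 2]) ∧
  ∃ s : ZMod m, IsNorm A m s ∧ (v : ZMod m) = s ^ 2 * ∏ b ∈ T, (b : ZMod m)

open scoped Classical in
/-- the number `R` of the admissible triples `(i, j, T)`, `0 ≤ i, j < k` -/
noncomputable def triples (A m k v : ℕ) [NeZero m] : ℕ :=
  ((range k ×ˢ range k ×ˢ (univ : Finset (Finset (ZMod m)ˣ))).filter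
    (fun x => Admissible A m k v x.1 x.2.1 x.2.2)).card

open scoped Classical in
/-- the pairs `(d, d')` of positive integers with `s₁ X < d ≤ s₂ X`, `s₃ X < d' ≤ s₄ X`,
`d ≡ r mod q` and `d d' = n^2 + n + A` squarefree for some `n ≥ 0`, `n ≡ u mod q` -/
noncomputable def pairs (A q u r : ℕ) (s₁ s₂ s₃ s₄ : ℝ) (X : ℕ) : Finset (ℕ × ℕ) :=
  ((Icc 1 X) ×ˢ (Icc 1 X)).filter (fun p => s₁ * X < (p.1 : ℝ) ∧ (p.1 : ℝ) ≤ s₂ * X ∧
    s₃ * X < (p.2 : ℝ) ∧ (p.2 : ℝ) ≤ s₄ * X ∧ p.1 ≡ r [MOD q] ∧ Squarefree (p.1 * p.2) ∧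
    ∃ n : ℕ, p.1 * p.2 = n ^ 2 + n + A ∧ n ≡ u [MOD q])

open scoped Classical in
/-- the sum of `1/max(d, d')` over the factorisations `n^2 + n + A = d d'` with the property `Q`,
`1 ≤ n ≤ N`, `n ≡ u mod q`, `n^2 + n + A` squarefree -/
noncomputable def mass (A q u : ℕ) (Q : ℕ → ℕ → Prop) (N : ℕ) : ℝ :=
  ∑ n ∈ (Icc 1 N).filter (fun n => n ≡ u [MOD q] ∧ Squarefree (n ^ 2 + n + A)),
    ∑ d ∈ (n ^ 2 + n + A).divisors.filter (fun d => Q d ((n ^ 2 + n + A) / d)),
      1 / ((max d ((n ^ 2 + n + A) / d) : ℕ) : ℝ)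

open scoped Classical in
/-- Let `A` be one of `1, 2, 3, 5, 11, 17, 41`, `F(n) = n^2 + n + A`, let `m, k, q ≥ 1`, let `m` divide
`q`, let `F(u)` be prime to `m`, and `l^2 ∤ F(u)` for all primes `l` with `l^2 ∣ q`. Let `i`, `j` be
integers and `T` a set of residue classes modulo `m`, prime to `m`.

1. If some `F(n) = d d'`, `n ≡ u mod q`, has `Ω(d) ≡ i`, `Ω(d') ≡ j mod k` and `T` is the set of the
  classes prime to `m` which contain an odd number of the prime factors of `F(n)`, then `(i, j, T)` is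
  admissible.
2. There is `c₁ > 0` such that the sum of `1/max(d, d')` over the factorisations `F(n) = d d'`,
  `n ≤ N`, `n ≡ u mod q`, `F(n)` squarefree, is at least `c₁ log N` for all large `N`.

Let `(i, j, T)` be admissible and let `R` be the number of the admissible triples with
`0 ≤ i, j < k`.

3. The sum in 2 restricted to the factorisations with the pattern `(i, j, T)` is `(1/R + o(1))` times
  the whole sum.
4. For almost all `X` the number of the elements of `pairs` with the pattern `(i, j, T)` is `1/R` times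
  the number of the elements of `pairs`, up to `ε X`, for every `ε > 0`. -/
theorem result (A : ℕ) (hA : A ∈ ([1, 2, 3, 5, 11, 17, 41] : List ℕ)) (m k q u : ℕ) [NeZero m]
    (hk : 1 ≤ k) (hq : 1 ≤ q) (hmq : m ∣ q) (hu : (u ^ 2 + u + A).Coprime m)
    (hqu : ∀ l : ℕ, l.Prime → l ^ 2 ∣ q → ¬ l ^ 2 ∣ u ^ 2 + u + A) (i j : ℕ)
    (T : Finset (ZMod m)ˣ) :
    (∀ n d d' : ℕ, n ≡ u [MOD q] → d * d' = n ^ 2 + n + A → PairPattern m k i j T d d' →
      Admissible A m k (u ^ 2 + u + A) i j T) ∧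
    (∃ c₁ : ℝ, 0 < c₁ ∧ ∃ N₀ : ℕ, ∀ N : ℕ, N₀ ≤ N →
      c₁ * Real.log N ≤ mass A q u (fun _ _ => True) N) ∧
    (Admissible A m k (u ^ 2 + u + A) i j T →
      Tendsto (fun N : ℕ => mass A q u (PairPattern m k i j T) N / mass A q u (fun _ _ => True) N)
        atTop (nhds (1 / (triples A m k (u ^ 2 + u + A) : ℝ))) ∧
      ∀ (r : ℕ) (s₁ s₂ s₃ s₄ : ℝ), 0 ≤ s₁ → s₁ < s₂ → s₂ ≤ 1 → 0 ≤ s₃ → s₃ < s₄ → s₄ ≤ 1 →
        ∀ ε : ℝ, 0 < ε → LogNull (fun X => ε * X <
          |(((pairs A q u r s₁ s₂ s₃ s₄ X).filter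
            (fun p => PairPattern m k i j T p.1 p.2)).card : ℝ) -
            1 / (triples A m k (u ^ 2 + u + A) : ℝ) *
              ((pairs A q u r s₁ s₂ s₃ s₄ X).card : ℝ)|)) := by
  have h9 : (1, A) ∈ ([(0, 1), (0, 2), (1, 1), (1, 2), (1, 3), (1, 5),
      (1, 11), (1, 17), (1, 41)] : List (ℕ × ℕ)) := by
    simp only [List.mem_cons, List.not_mem_nil, or_false] at hA
    rcases hA with rfl | rfl | rfl | rfl | rfl | rfl | rfl <;> simp
  obtain ⟨_, χ, hF⟩ := Pool.Agent.W251.EG.fd9 1 A h9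
  have hS := Pool.Agent.W251.EG.sps9 1 A h9
  have hk0 : NeZero k := ⟨by omega⟩
  have hm1 : 1 ≤ m := Nat.one_le_iff_ne_zero.2 (NeZero.ne m)
  have hA1 := Pool.Agent.W251.EG.c_pos hF
  have hdisc : (1 : ℤ) ^ 2 - 4 * 1 * (A : ℤ) = ((1 : ℕ) : ℤ) ^ 2 - 4 * (A : ℤ) :=
    Pool.Agent.V11296.CX.dsc A
  have hqv : ∀ n : ℕ, Pool.Agent.W78.EG.qv (1 : ℤ) (1 : ℤ) (A : ℤ) n = n ^ 2 + n + A := by
    intro n
    have h1 := Pool.Agent.V11296.CX.qv_cast hF one_pos hdisc n
    rw [one_mul, one_mul] at h1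
    exact_mod_cast h1
  have hu' : (Pool.Agent.W78.EG.qv (1 : ℤ) (1 : ℤ) (A : ℤ) u).Coprime m := by
    rw [hqv]
    exact hu
  have hN : ∀ b : ZMod m, Pool.Agent.V11296.CV.isN 1 A m b ↔ IsNorm A m b := by
    intro b
    unfold Pool.Agent.V11296.CV.isN IsNorm
    simp only [Nat.cast_one, one_mul]
  have hAdm : ∀ (v x y : ℕ) (T' : Finset (ZMod m)ˣ),
      Pool.Agent.V11296.CQ.Admn 1 A m k v (x + y) T' ↔ Admissible A m k v x y T' := by
    intro v x y T'
    unfold Pool.Agent.V11296.CQ.Admn Admissible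
    simp only [hN]
  have hmass : ∀ (Q : ℕ → ℕ → Prop) (N : ℕ), mass A q u Q N =
      ∑ n ∈ (Icc 1 N).filter (fun n => n ≡ u [MOD q] ∧
        Squarefree (Pool.Agent.W78.EG.qv (1 : ℤ) (1 : ℤ) (A : ℤ) n)),
      ∑ d ∈ (Pool.Agent.W78.EG.qv (1 : ℤ) (1 : ℤ) (A : ℤ) n).divisors.filter
        (fun d => Q d (Pool.Agent.W78.EG.qv (1 : ℤ) (1 : ℤ) (A : ℤ) n / d)),
        1 / ((max d (Pool.Agent.W78.EG.qv (1 : ℤ) (1 : ℤ) (A : ℤ) n / d) : ℕ) : ℝ) := by
    intro Q N
    unfold mass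
    simp only [hqv]
  have hmassT : ∀ N : ℕ, mass A q u (fun _ _ => True) N =
      ∑ n ∈ (Icc 1 N).filter (fun n => n ≡ u [MOD q] ∧
        Squarefree (Pool.Agent.W78.EG.qv (1 : ℤ) (1 : ℤ) (A : ℤ) n)),
        Pool.Agent.W78.EG.wq (1 : ℤ) (1 : ℤ) (A : ℤ) n := by
    intro N
    rw [hmass]
    refine sum_congr rfl fun n _ => ?_
    unfold Pool.Agent.W78.EG.wq
    rw [sum_filter]
    exact sum_congr rfl fun d _ => if_pos trivial
  refine ⟨fun n d d' hn hdd hp => ?_, ?_, fun hAd => ?_⟩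
  · have h1 := Pool.Agent.V11296.CX.nec_pair hF one_pos hdisc hmq hu' T hn
      (by rw [one_mul, one_mul]; exact_mod_cast hdd) hp.1 hp.2.1 hp.2.2
    rw [hqv] at h1
    exact (hAdm _ _ _ _).1 h1
  · obtain ⟨c₁, hc₁, N₀, h1⟩ := Pool.Agent.V11296.CX.lowN hF hS q hq u hqu
    refine ⟨c₁, hc₁, N₀, fun N hN => ?_⟩
    rw [hmassT]
    refine (h1 N hN).trans (le_of_eq ?_)
    congr!
  · have hAd' : Pool.Agent.V11296.CQ.Admn 1 A m k
        (Pool.Agent.W78.EG.qv (1 : ℤ) (1 : ℤ) (A : ℤ) u) (i + j) T := by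
      rw [hqv]
      exact (hAdm _ _ _ _).2 hAd
    have hg := Pool.Agent.V11296.CW.gpk 1 A m k hm1
    have hal := Pool.Agent.V11296.CX.alf_pair hF hm1 hk one_pos hdisc hmq hu' T hAd'
    have hcard := Pool.Agent.V11296.CX.card_AT (k := k) hF one_pos hdisc hq hmq hu'
    have hR : ((Pool.Agent.V11296.CX.AT 1 A m k
        (Pool.Agent.W78.EG.qv (1 : ℤ) (1 : ℤ) (A : ℤ) u)).card : ℝ) =
        (triples A m k (u ^ 2 + u + A) : ℝ) := by
      rw [hqv]
      unfold triples Pool.Agent.V11296.CX.AT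
      congr 2
      ext x
      rw [mem_filter, mem_filter]
      exact and_congr_right fun _ => hAdm _ _ _ _
    rw [hR] at hcard
    have hiff : ∀ d d' : ℕ, d ≠ 0 → d' ≠ 0 → (Pool.Agent.V11296.CW.H1 m k d +
        Pool.Agent.V11296.CW.H2 m k d' =
        (((i : ZMod k), (j : ZMod k), ∑ b ∈ T, Pool.Agent.V11296.CV.ev m (b : ZMod m)) :
          Pool.Agent.V11296.CW.Bk m k) ↔ PairPattern m k i j T d d') :=
      fun d d' h1 h2 => Pool.Agent.V11296.CW.pair_iff d d' i j h1 h2 T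
    refine ⟨?_, fun r s₁ s₂ s₃ s₄ h1 h2 h3 h4 h5 h6 ε hε => ?_⟩
    · have h1 := Pool.Agent.V11296.CX.tendS hF hS hg _ q hq u hqu hal
      rw [hcard] at h1
      refine h1.congr fun N => ?_
      rw [hmassT, hmass]
      have h2 : ∀ n d : ℕ, d ∈ (Pool.Agent.W78.EG.qv (1 : ℤ) (1 : ℤ) (A : ℤ) n).divisors →
          (Pool.Agent.V11296.CW.H1 m k d + Pool.Agent.V11296.CW.H2 m k
            (Pool.Agent.W78.EG.qv (1 : ℤ) (1 : ℤ) (A : ℤ) n / d) =
            (((i : ZMod k), (j : ZMod k), ∑ b ∈ T, Pool.Agent.V11296.CV.ev m (b : ZMod m)) :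
              Pool.Agent.V11296.CW.Bk m k) ↔
          PairPattern m k i j T d (Pool.Agent.W78.EG.qv (1 : ℤ) (1 : ℤ) (A : ℤ) n / d)) := by
        intro n d hd
        have h3 := Nat.pos_of_mem_divisors hd
        have h4 : 0 < Pool.Agent.W78.EG.qv (1 : ℤ) (1 : ℤ) (A : ℤ) n / d :=
          Nat.div_pos (Nat.divisor_le hd) h3
        exact hiff _ _ h3.ne' h4.ne'
      congr 1
      · refine sum_congr (by congr!) fun n _ => sum_congr ?_ fun _ _ => rfl
        ext d
        simp only [mem_filter]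
        exact and_congr_right fun hd => h2 n d hd
    · have h7 := Pool.Agent.V11296.CX.nullSW (t := 1) hF hg _ q u r hq
        (Pool.Agent.V11296.CX.alp_of_alf (r := r) hal hA1) s₁ s₂ s₃ s₄ h1 h2 h3 h4 h5 h6 ε hε
      refine Pool.Agent.TH890.DV.LogNull.of_ev 0 (fun X _ hX => ?_) h7
      refine lt_of_lt_of_eq hX ?_
      congr 1
      have h8 : pairs A q u r s₁ s₂ s₃ s₄ X =
          (Pool.Agent.W78.EG.SW ((1 : ℕ) : ℤ) (A : ℤ) q u r s₁ s₂ s₃ s₄ X).filter
            (fun p => Squarefree (p.1 * p.2)) := by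
        unfold pairs
        ext p
        rw [mem_filter, mem_filter, Pool.Agent.W251.EG.mem_SWn, mem_product, mem_Icc, mem_Icc]
        constructor
        · rintro ⟨g1, g2, g3, g4, g5, g6, g7, n, g8, g9⟩
          exact ⟨⟨g1, ⟨n, by omega, by rw [g8]; ring, g9, g6⟩, g2, g3, g4, g5⟩, g7⟩
        · rintro ⟨⟨g1, ⟨n, _, g8, g9, g6⟩, g2, g3, g4, g5⟩, g7⟩
          exact ⟨g1, g2, g3, g4, g5, g6, g7, n, by rw [g8]; ring, g9⟩
      have h9 : ∑ p ∈ Pool.Agent.W78.EG.SW ((1 : ℕ) : ℤ) (A : ℤ) q u r s₁ s₂ s₃ s₄ X,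
          Pool.Agent.V11296.CX.phiS (Pool.Agent.V11296.CW.H1 m k) (Pool.Agent.V11296.CW.H2 m k)
            (((i : ZMod k), (j : ZMod k), ∑ b ∈ T, Pool.Agent.V11296.CV.ev m (b : ZMod m)) :
              Pool.Agent.V11296.CW.Bk m k)
            (Pool.Agent.V11296.CW.Dt 1 A m (Pool.Agent.V11296.CW.E1 1 A m k)
              ((1, 1, 0) : Pool.Agent.V11296.CW.Bk m k)) p =
          ∑ p ∈ pairs A q u r s₁ s₂ s₃ s₄ X, ((if PairPattern m k i j T p.1 p.2 then (1 : ℝ)
            else 0) - 1 / (triples A m k (u ^ 2 + u + A) : ℝ)) := by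
        rw [h8, sum_filter]
        refine sum_congr rfl fun p hp => ?_
        rw [Pool.Agent.W251.EG.mem_SWn] at hp
        unfold Pool.Agent.V11296.CX.phiS Pool.Agent.V11296.CX.phi
        rw [← hcard]
        have h10 := hiff p.1 p.2 (by omega) (by omega)
        by_cases h11 : Squarefree (p.1 * p.2)
        · rw [if_pos h11, if_pos h11]
          by_cases h12 : PairPattern m k i j T p.1 p.2
          · rw [if_pos h12, if_pos (h10.2 h12)]
          · rw [if_neg h12, if_neg (fun h13 => h12 (h10.1 h13))]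
        · rw [if_neg h11, if_neg h11]
      rw [h9, sum_sub_distrib, sum_boole, sum_const, nsmul_eq_mul, mul_comm]

end Pool.Agent.Results.MP_8be758_nt.SquarefreePatternDensities
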