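import Pool.Agent.V11296.EB1

/-!
The squarefree values of `F(n) = n^2 + n + A`, `A = 3, 5, 11, 17, 41` (and `1`, `2`), `n` in an
arithmetic progression: the joint distribution of the number of the prime factors modulo `k` and of
sums over the prime factors `p` of `F(n)` of a function `e(p, n)` which depends, in an arbitrary way,
on `p` and on the root `n mod p` of `F` modulo `p`.

The starting files have the cancellation theorem `W251.EG.tsG` for products `g₁(d) g₂(d')` of functions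
of integers over the factorisations `F(n) = d d'`, the bilinear estimate `W251.EG.mainyG` behind it,
the bound `W251.EG.tailc` for the squares of large primes, and the lower bound `W251.EG.sps9` for the
number of the squarefree values. Our `RootDependentFunctions` (problem MP_892e4c_nt) has all values of
quadratic polynomials.
-/

set_option autoImplicit false

namespace Pool.Agent.Results.MP_8be758_nt.SquarefreeRootFunctions

open Finset Filter

open scoped Classical in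
/-- the set of the positive integers `X` with `P X` has logarithmic density `0` -/
def LogNull (P : ℕ → Prop) : Prop :=
  Tendsto (fun Z : ℕ => (∑ X ∈ (Icc 1 Z).filter P, 1 / (X : ℝ)) / Real.log Z) atTop (nhds 0)

/-- `e(p, n)` depends only on `n mod p`, and its values at two different roots modulo the prime `p` of
`x^2 + x + A` have the sum `τ` -/
structure RootFunction {G : Type} [AddCommGroup G] (A : ℕ) (e : ℕ → ℕ → G) (τ : G) : Prop where
  per : ∀ p n n' : ℕ, n ≡ n' [MOD p] → e p n = e p n'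
  sum : ∀ p n n' : ℕ, p.Prime → p ∣ n ^ 2 + n + A → p ∣ n' ^ 2 + n' + A →
    ¬ n ≡ n' [MOD p] → e p n + e p n' = τ

open scoped Classical in
/-- for every proper subgroup `S` of `G`, the primes `p` with two different roots `n`, `n'` modulo `p`
of `x^2 + x + A` with `e(p, n) - e(p, n') ∈ S` have density `0` among the primes -/
def Generic {G : Type} [AddCommGroup G] (A : ℕ) (e : ℕ → ℕ → G) : Prop :=
  ∀ S : AddSubgroup G, S ≠ ⊤ → ∀ ε : ℝ, 0 < ε → ∃ N₀ : ℕ, ∀ N : ℕ, N₀ ≤ N →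
    ∑ p ∈ (Icc 1 N).filter (fun p => p.Prime ∧ ∃ n n' : ℕ, p ∣ n ^ 2 + n + A ∧
      p ∣ n' ^ 2 + n' + A ∧ ¬ n ≡ n' [MOD p] ∧ e p n - e p n' ∈ S), Real.log p ≤ ε * N

/-- the sum of `e(p, n)` over the prime factors `p` of `n^2 + n + A`, with multiplicity -/
def total {G : Type} [AddCommGroup G] (A : ℕ) (e : ℕ → ℕ → G) (n : ℕ) : G :=
  ((n ^ 2 + n + A).primeFactorsList.map (fun p => e p n)).sum

/-- the number of the prime factors of `n`, with multiplicity -/
def Omega (n : ℕ) : ℕ := n.primeFactorsList.length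

open scoped Classical in
/-- the sum of `1/max(d, d')` over the factorisations `n^2 + n + A = d d'` with `Q n`,
`1 ≤ n ≤ N`, `n ≡ u mod q`, `n^2 + n + A` squarefree -/
noncomputable def mass (A q u : ℕ) (Q : ℕ → Prop) (N : ℕ) : ℝ :=
  ∑ n ∈ (Icc 1 N).filter (fun n => n ≡ u [MOD q] ∧ Squarefree (n ^ 2 + n + A) ∧ Q n),
    ∑ d ∈ (n ^ 2 + n + A).divisors, 1 / ((max d ((n ^ 2 + n + A) / d) : ℕ) : ℝ)

open scoped Classical in
/-- the pairs `(d, d')` of positive integers with `s₁ X < d ≤ s₂ X`, `s₃ X < d' ≤ s₄ X`,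
`d ≡ r mod q` and `d d' = n^2 + n + A` squarefree for some `n ≥ 0` with `n ≡ u mod q` and
`Q n d d'` -/
noncomputable def pairs (A q u r : ℕ) (s₁ s₂ s₃ s₄ : ℝ) (Q : ℕ → ℕ → ℕ → Prop) (X : ℕ) :
    Finset (ℕ × ℕ) :=
  ((Icc 1 X) ×ˢ (Icc 1 X)).filter (fun p => s₁ * X < (p.1 : ℝ) ∧ (p.1 : ℝ) ≤ s₂ * X ∧
    s₃ * X < (p.2 : ℝ) ∧ (p.2 : ℝ) ≤ s₄ * X ∧ p.1 ≡ r [MOD q] ∧ Squarefree (p.1 * p.2) ∧
    ∃ n : ℕ, p.1 * p.2 = n ^ 2 + n + A ∧ n ≡ u [MOD q] ∧ Q n p.1 p.2)

open scoped Classical in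
/-- Let `A` be one of `1, 2, 3, 5, 11, 17, 41` and `F(n) = n^2 + n + A`. Let `G` be a finite abelian
group, `τ` in `G`, and for every prime `p` and every residue class `n mod p` let `e(p, n)` in `G` be
given, such that `e(p, n) + e(p, n') = τ` for any two different roots `n`, `n'` of `F` modulo `p`.
Suppose that for every proper subgroup `S` of `G` the primes with `e(p, n) - e(p, n') ∈ S` have density
`0`. Let `Θ(n)` be the sum of `e(p, n)` over the prime factors `p` of `F(n)`. Let `k, q ≥ 1` and let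
`l^2 ∤ F(u)` for all primes `l` with `l^2 ∣ q`.

1. There is `c₁ > 0` such that the sum of `1/max(d, d')` over the factorisations `F(n) = d d'`,
  `n ≤ N`, `n ≡ u mod q`, `F(n)` squarefree, is at least `c₁ log N` for all large `N`.

2. For all `j` and all `g` in `G`, the part of this sum with `Ω(F(n)) ≡ j mod k` and `Θ(n) = g` is
  `1 / (k |G|) + o(1)` times the whole sum.

3. For all `i`, `j`, `r`, all `g` in `G` and all windows, and for all `X` outside a set of logarithmic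
  density `0`: among the pairs `(d, d')` with `d d' = F(n)` squarefree, `n ≡ u mod q`, `d ≡ r mod q`,
  `s₁ X < d ≤ s₂ X`, `s₃ X < d' ≤ s₄ X`, the number of those with `Ω(d) ≡ i`, `Ω(d') ≡ j mod k` and
  `Θ(n) = g` is `1 / (k^2 |G|)` times the number of all, up to `ε X`. -/
theorem result (A : ℕ) (hA : A ∈ ([1, 2, 3, 5, 11, 17, 41] : List ℕ)) (G : Type) [AddCommGroup G]
    [Finite G] (e : ℕ → ℕ → G) (τ : G) (he : RootFunction A e τ) (hgen : Generic A e) (k q u : ℕ)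
    (hk : 1 ≤ k) (hq : 1 ≤ q) (hqu : ∀ l : ℕ, l.Prime → l ^ 2 ∣ q → ¬ l ^ 2 ∣ u ^ 2 + u + A) :
    (∃ c₁ : ℝ, 0 < c₁ ∧ ∃ N₀ : ℕ, ∀ N : ℕ, N₀ ≤ N →
      c₁ * Real.log N ≤ mass A q u (fun _ => True) N) ∧
    (∀ (j : ℕ) (g : G), Tendsto (fun N : ℕ =>
      mass A q u (fun n => Omega (n ^ 2 + n + A) ≡ j [MOD k] ∧ total A e n = g) N /
        mass A q u (fun _ => True) N) atTop (nhds (1 / ((k : ℝ) * Nat.card G)))) ∧
    (∀ (i j : ℕ) (g : G) (r : ℕ) (s₁ s₂ s₃ s₄ : ℝ), 0 ≤ s₁ → s₁ < s₂ → s₂ ≤ 1 → 0 ≤ s₃ →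
      s₃ < s₄ → s₄ ≤ 1 → ∀ ε : ℝ, 0 < ε → LogNull (fun X => ε * X <
        |((pairs A q u r s₁ s₂ s₃ s₄ (fun n d d' => Omega d ≡ i [MOD k] ∧ Omega d' ≡ j [MOD k] ∧
            total A e n = g) X).card : ℝ) -
          1 / ((k : ℝ) ^ 2 * Nat.card G) *
            ((pairs A q u r s₁ s₂ s₃ s₄ (fun _ _ _ => True) X).card : ℝ)|)) := by
  have h9 : (1, A) ∈ ([(0, 1), (0, 2), (1, 1), (1, 2), (1, 3), (1, 5),
      (1, 11), (1, 17), (1, 41)] : List (ℕ × ℕ)) := by
    simp only [List.mem_cons, List.not_mem_nil, or_false] at hA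
    rcases hA with rfl | rfl | rfl | rfl | rfl | rfl | rfl <;> simp
  obtain ⟨f, χ, hF⟩ := Pool.Agent.W251.EG.fd9 1 A h9
  have hS := Pool.Agent.W251.EG.sps9 1 A h9
  have hR := Pool.Agent.W251.EG.hl9 1 A h9 hF
  have ht := Pool.Agent.W251.EG.t_le hF
  have hk0 : NeZero k := ⟨by omega⟩
  have hA1 := Pool.Agent.W251.EG.c_pos hF
  have hdisc : (1 : ℤ) ^ 2 - 4 * 1 * (A : ℤ) = ((1 : ℕ) : ℤ) ^ 2 - 4 * (A : ℤ) :=
    Pool.Agent.V11296.CX.dsc A
  have hqv : ∀ n : ℕ, Pool.Agent.W78.EG.qv (1 : ℤ) (1 : ℤ) (A : ℤ) n = n ^ 2 + n + A := by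
    intro n
    have h1 := Pool.Agent.V11296.CX.qv_cast hF one_pos hdisc n
    rw [one_mul, one_mul] at h1
    exact_mod_cast h1
  have heV : Pool.Agent.V11296.EA.RV 1 A f e τ := by
    refine ⟨he.per, fun l n n' hl _ h1 h2 h3 => he.sum l n n' hl ?_ ?_ h3⟩
    · rwa [one_mul] at h1
    · rwa [one_mul] at h2
  have hgV : Pool.Agent.V11296.EA.GenV 1 A e := by
    intro S hS' ε hε
    obtain ⟨N₀, hN₀⟩ := hgen S hS' ε hε
    refine ⟨N₀, fun N hN => le_of_eq_of_le ?_ (hN₀ N hN)⟩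
    unfold Pool.Agent.V11296.EA.bad
    refine sum_congr ?_ fun _ _ => rfl
    ext p
    simp only [mem_filter, one_mul]
  have hwV : ∀ (x : (ZMod k × ZMod k) × G) (q' u' : ℕ), 1 ≤ q' →
      Pool.Agent.V11296.CY.Wn 1 A (Pool.Agent.V11296.EA.HT A k e) x (k ^ 2 * Nat.card G) q' u' :=
    fun x q' u' hq' => Pool.Agent.V11296.EA.wn_V hF hR heV hgV k x hq' u'
  have hwT : ∀ (y : ZMod k × G) (q' u' : ℕ), 1 ≤ q' →
      Pool.Agent.V11296.CY.Wn 1 A (fun p => Pool.Agent.V11296.EA.prT k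
        (Pool.Agent.V11296.EA.HT A k e p)) y (k * Nat.card G) q' u' := fun y q' u' hq' =>
    Pool.Agent.V11296.EB.wn_sum (univ : Finset (ZMod k)) (fun a => ((a, y.1 - a), y.2))
      (fun p => Pool.Agent.V11296.EA.dv_prT k (Pool.Agent.V11296.EA.HT A k e) y p)
      (fun a _ => hwV _ q' u' hq')
  have hHT : ∀ d d' n : ℕ, d * d' = n ^ 2 + n + A → Pool.Agent.V11296.EA.HT A k e (d, d') =
      (((Omega d : ZMod k), (Omega d' : ZMod k)), total A e n) := by
    intro d d' n hdd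
    unfold Pool.Agent.V11296.EA.HT
    rw [Pool.Agent.V11296.CY.nn_eq (p := (d, d')) ht (n := n) (by rw [one_mul]; exact hdd)]
    dsimp only
    rw [hdd]
    rfl
  have hiff : ∀ (d d' n : ℕ), d * d' = n ^ 2 + n + A → ∀ (i j : ℕ) (g : G),
      (Pool.Agent.V11296.EA.HT A k e (d, d') = (((i : ZMod k), (j : ZMod k)), g) ↔
        Omega d ≡ i [MOD k] ∧ Omega d' ≡ j [MOD k] ∧ total A e n = g) := by
    intro d d' n hdd i j g
    rw [hHT d d' n hdd, ← ZMod.natCast_eq_natCast_iff, ← ZMod.natCast_eq_natCast_iff]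
    constructor
    · intro h1
      exact ⟨congrArg (fun x => x.1.1) h1, congrArg (fun x => x.1.2) h1, congrArg Prod.snd h1⟩
    · rintro ⟨h1, h2, h3⟩
      rw [h1, h2, h3]
  have hiff2 : ∀ (d d' n : ℕ), d * d' = n ^ 2 + n + A → ∀ (j : ℕ) (g : G),
      (Pool.Agent.V11296.EA.prT k (Pool.Agent.V11296.EA.HT A k e (d, d')) = ((j : ZMod k), g) ↔
        Omega (n ^ 2 + n + A) ≡ j [MOD k] ∧ total A e n = g) := by
    intro d d' n hdd j g
    have h0 : d * d' ≠ 0 := by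
      rw [hdd]
      omega
    have h5 : Omega (n ^ 2 + n + A) = Omega d + Omega d' := by
      rw [← hdd]
      exact Pool.Agent.V11296.CY.len_mul (left_ne_zero_of_mul h0) (right_ne_zero_of_mul h0)
    rw [hHT d d' n hdd, ← ZMod.natCast_eq_natCast_iff, h5]
    unfold Pool.Agent.V11296.EA.prT
    push_cast
    constructor
    · intro h1
      exact ⟨congrArg Prod.fst h1, congrArg Prod.snd h1⟩
    · rintro ⟨h1, h2⟩
      exact Prod.ext h1 h2
  have hmassT : ∀ N : ℕ, mass A q u (fun _ => True) N =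
      ∑ n ∈ (Icc 1 N).filter (fun n => n ≡ u [MOD q] ∧
        Squarefree (Pool.Agent.W78.EG.qv (1 : ℤ) (1 : ℤ) (A : ℤ) n)),
        Pool.Agent.W78.EG.wq (1 : ℤ) (1 : ℤ) (A : ℤ) n := by
    intro N
    unfold mass Pool.Agent.W78.EG.wq
    simp only [hqv, and_true]
  refine ⟨?_, fun j g => ?_, fun i j g r s₁ s₂ s₃ s₄ h1 h2 h3 h4 h5 h6 ε hε => ?_⟩
  · obtain ⟨c₁, hc₁, N₀, h1⟩ := Pool.Agent.V11296.CX.lowN hF hS q hq u hqu
    refine ⟨c₁, hc₁, N₀, fun N hN => ?_⟩
    rw [hmassT]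
    refine (h1 N hN).trans (le_of_eq ?_)
    congr!
  · have h7 := Pool.Agent.V11296.EB.wnS_of hF (hwT ((j : ZMod k), g)) hq u
    have h8 := Pool.Agent.V11296.EB.tendgS hF hS hq hqu h7
    push_cast at h8
    refine h8.congr fun N => ?_
    rw [hmassT]
    refine congrArg₂ (fun x y : ℝ => x / y) ?_ ?_
    · unfold mass
      simp only [hqv]
      rw [sum_filter, sum_filter]
      refine sum_congr rfl fun n _ => ?_
      by_cases hs : n ≡ u [MOD q] ∧ Squarefree (n ^ 2 + n + A)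
      · rw [if_pos hs]
        by_cases h9 : Omega (n ^ 2 + n + A) ≡ j [MOD k] ∧ total A e n = g
        · rw [if_pos ⟨hs.1, hs.2, h9⟩, sum_filter]
          refine sum_congr rfl fun d hd => ?_
          rw [if_pos ((hiff2 d _ n (Nat.mul_div_cancel' (Nat.mem_divisors.1 hd).1) j g).2 h9),
            Nat.cast_max]
        · rw [if_neg (fun h10 => h9 h10.2.2), sum_filter]
          refine sum_eq_zero fun d hd => ?_
          rw [if_neg (fun h10 => h9
            ((hiff2 d _ n (Nat.mul_div_cancel' (Nat.mem_divisors.1 hd).1) j g).1 h10))]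
      · rw [if_neg hs, if_neg (fun h10 => hs ⟨h10.1, h10.2.1⟩)]
    · refine sum_congr (by congr!) fun n _ => rfl
  · have h7 := Pool.Agent.V11296.EB.wnS_of hF (hwV (((i : ZMod k), (j : ZMod k)), g)) hq u r
      s₁ s₂ s₃ s₄ h1 h2 h3 h4 h5 h6 ε hε
    refine Pool.Agent.TH890.DV.LogNull.of_ev 0 (fun X _ hX => ?_) h7
    refine lt_of_lt_of_eq hX ?_
    congr 1
    have h8 : pairs A q u r s₁ s₂ s₃ s₄ (fun _ _ _ => True) X =
        (Pool.Agent.W78.EG.SW ((1 : ℕ) : ℤ) (A : ℤ) q u r s₁ s₂ s₃ s₄ X).filter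
          (fun p => Squarefree (p.1 * p.2)) := by
      unfold pairs
      ext p
      rw [mem_filter, mem_filter, Pool.Agent.W251.EG.mem_SWn, mem_product, mem_Icc, mem_Icc]
      constructor
      · rintro ⟨g1, g2, g3, g4, g5, g6, g7, n, g8, g9, _⟩
        exact ⟨⟨g1, ⟨n, by omega, by rw [g8]; ring, g9, g6⟩, g2, g3, g4, g5⟩, g7⟩
      · rintro ⟨⟨g1, ⟨n, _, g8, g9, g6⟩, g2, g3, g4, g5⟩, g7⟩
        exact ⟨g1, g2, g3, g4, g5, g6, g7, n, by rw [g8]; ring, g9, trivial⟩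
    have h9 : pairs A q u r s₁ s₂ s₃ s₄ (fun n d d' => Omega d ≡ i [MOD k] ∧
        Omega d' ≡ j [MOD k] ∧ total A e n = g) X =
        (pairs A q u r s₁ s₂ s₃ s₄ (fun _ _ _ => True) X).filter (fun p =>
          Pool.Agent.V11296.EA.HT A k e p = (((i : ZMod k), (j : ZMod k)), g)) := by
      unfold pairs
      ext p
      rw [mem_filter, mem_filter, mem_filter]
      constructor
      · rintro ⟨g1, g2, g3, g4, g5, g6, g7, n, g8, g9, g10⟩
        exact ⟨⟨g1, g2, g3, g4, g5, g6, g7, n, g8, g9, trivial⟩,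
          (hiff p.1 p.2 n g8 i j g).2 g10⟩
      · rintro ⟨⟨g1, g2, g3, g4, g5, g6, g7, n, g8, g9, _⟩, g10⟩
        exact ⟨g1, g2, g3, g4, g5, g6, g7, n, g8, g9, (hiff p.1 p.2 n g8 i j g).1 g10⟩
    rw [h9, h8]
    unfold Pool.Agent.V11296.EB.dvS Pool.Agent.V11296.CY.dv
    rw [← sum_filter, sum_sub_distrib, sum_const, nsmul_eq_mul, mul_comm (_ : ℝ), card_filter]
    push_cast
    refine congrArg₂ (fun x y : ℝ => x - y) (sum_congr rfl fun p _ => ?_) rfl
    congr!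

end Pool.Agent.Results.MP_8be758_nt.SquarefreeRootFunctions
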